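import Pool.Agent.Work.MP_c20ce7_dm90.T2
import Pool.Agent.Work.MP_c20ce7_nt.Defs

set_option autoImplicit false

/-!
# ABV-packets of `GL_n(F)` through modules over the Weyl algebra

The infinitesimal parameter is `λ(w) = diag(|w| ^ e)`, `e : ι → ℝ`, `ι` the basis of the space of the
parameter. Then `V_λ` consists of the matrices `x` with `x a b = 0` unless `e a = e b + 1` and `H_λ` of the
invertible matrices `g` with `g a b = 0` unless `e a = e b`.

The perverse sheaf `IC(closure C)` of an orbit `C` corresponds (Riemann-Hilbert, Kashiwara) to the unique simple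
`H_λ`-equivariant module `L` over the Weyl algebra of `V_λ` with support `closure C` (all stabilisers are
connected), and its singular support is the characteristic variety of `L`, i.e. the set of the common zeros of the
principal symbols of the operators which annihilate a nonzero vector of `L`.
-/

open MvPolynomial Pool.Agent.MPc20ce7

noncomputable section

namespace Pool.DM

/-! ## The space `V_λ` and its conormal bundles -/

section Space

variable {ι : Type} [Fintype ι] [DecidableEq ι] {R : Type} [Add R] [One R]

/-- The coordinates of `V_λ`: pairs `(a, b)` with `e a = e b + 1`. -/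
abbrev Co (e : ι → R) : Type := {p : ι × ι // e p.1 = e p.2 + 1}

instance (e : ι → R) : Fintype (Co e) := by classical exact inferInstance

/-- The matrix of a point of `V_λ`. -/
def mat (e : ι → R) (x : Co e → ℂ) : Matrix ι ι ℂ := by
  classical exact fun a b => if h : e a = e b + 1 then x ⟨(a, b), h⟩ else 0

/-- The conormal bundle of an `H_λ`-orbit `C`: pairs `(x, ξ)` with `x ∈ C` and `ξ` orthogonal to `[h, x]` for all
`h` in the Lie algebra of `H_λ`. -/
def Conormal (e : ι → R) (C : Set (Co e → ℂ)) : Set ((Co e → ℂ) × (Co e → ℂ)) :=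
  {p | p.1 ∈ C ∧ ∀ h : Matrix ι ι ℂ, (∀ a b, h a b ≠ 0 → e a = e b) →
    ∑ c : Co e, p.2 c * (h * mat e p.1 - mat e p.1 * h) c.1.1 c.1.2 = 0}

end Space

/-! ## Modules over the Weyl algebra -/

section Modules

variable {σ : Type} [Fintype σ] [DecidableEq σ] {L : Type} [AddCommGroup L] [Module ℂ L]

/-- The operator `f` is locally nilpotent. -/
def LocNil (f : Module.End ℂ L) : Prop := ∀ u : L, ∃ k : ℕ, (f ^ k) u = 0

/-- The support of the module is the closure of `C`: a polynomial vanishes on `C` if and only if it acts locally
nilpotently. -/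
def WMod.SuppEq (W : WMod σ L) (C : Set (σ → ℂ)) : Prop :=
  ∀ g : MvPolynomial σ ℂ, (∀ x ∈ C, eval x g = 0) ↔ LocNil (W.x g)

/-- The weights which give the order of an operator: functions have order `0`, derivations order `1`. -/
def wt (σ : Type) : σ ⊕ σ → ℕ := Sum.elim (fun _ => 0) (fun _ => 1)

/-- The point `(x, ξ)` of the cotangent bundle is in the characteristic variety (the module is assumed to be
simple): for every nonzero vector `u`, every `m` and every operator `P` of order at most `m` with `P u = 0` the
principal symbol `σ_m(P)` vanishes at `(x, ξ)`. -/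
def WMod.InCh (W : WMod σ L) (x ξ : σ → ℂ) : Prop :=
  ∀ u : L, u ≠ 0 → ∀ (m : ℕ) (P : MvPolynomial (σ ⊕ σ) ℂ), weightedTotalDegree (wt σ) P ≤ m → W.nf P u = 0 →
    eval (Sum.elim x ξ) (weightedHomogeneousComponent (wt σ) m P) = 0

end Modules

section Equivariance

variable {ι : Type} [Fintype ι] [DecidableEq ι] {R : Type} [Add R] [One R] {e : ι → R}
variable {L : Type} [AddCommGroup L] [Module ℂ L]

/-- The operator `x_{ab}` (zero if `(a, b)` is not a coordinate). -/
def WMod.xo (W : WMod (Co e) L) (a b : ι) : Module.End ℂ L := by
  classical exact if h : e a = e b + 1 then W.x (X ⟨(a, b), h⟩) else 0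

/-- The operator `∂ / ∂x_{ab}` (zero if `(a, b)` is not a coordinate). -/
def WMod.dO (W : WMod (Co e) L) (a b : ι) : Module.End ℂ L := by
  classical exact if h : e a = e b + 1 then W.d (X ⟨(a, b), h⟩) else 0

/-- The vector field `x ↦ [E_{ab}, x]` of the matrix unit `E_{ab}`, `e a = e b`, acting on the module. -/
def WMod.G (W : WMod (Co e) L) (a b : ι) : Module.End ℂ L :=
  ∑ c, W.xo b c * W.dO a c - ∑ c, W.xo c a * W.dO c b

/-- The action of the Lie algebra of `H_λ` by vector fields integrates to an algebraic action of `H_λ`: the
diagonal matrix units act diagonalizably with integral eigenvalues, the other ones locally nilpotently. -/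
structure WMod.Equivariant (W : WMod (Co e) L) : Prop where
  diag : ∀ (a : ι) (u : L), u ∈ ⨆ n : ℤ, Module.End.eigenspace (W.G a a) (n : ℂ)
  nil : ∀ a b : ι, a ≠ b → e a = e b → LocNil (W.G a b)

/-- `L` is the module of the intersection cohomology sheaf of the closure of the orbit `C`: it is simple,
holonomic (Bernstein's criterion: growth of order `dim V_λ`), equivariant, and its support is the closure of `C`. -/
structure WMod.IsIC (W : WMod (Co e) L) (C : Set (Co e → ℂ)) : Prop where
  simple : W.Simple
  growth : W.Growth
  equi : W.Equivariant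
  supp : W.SuppEq C

end Equivariance

/-! ## ABV-packets and the statement -/

/-- The orbit `C_φ` in the coordinates of `V_λ`, `λ(w) = diag(|w| ^ e)`. -/
def orb {ι : Type} [Fintype ι] [DecidableEq ι] (e : ι → ℝ) (φ : Par) : Set (Co e → ℂ) :=
  {x | mat e x ∈ orbit e φ}

/-- The irreducible representation `π` with the parameter `ψ` is in the ABV-packet of `φ`: the two parameters have
the same infinitesimal parameter `λ` and the conormal bundle of `C_φ` is contained in the characteristic variety
of the module of `IC(closure C_ψ)` (the closure of the conormal bundle is then an irreducible component, by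
dimension). -/
def ABV (φ ψ : Par) : Prop :=
  ∃ (ι : Type) (_ : Fintype ι) (_ : DecidableEq ι) (e : ι → ℝ), (orb e φ).Nonempty ∧ (orb e ψ).Nonempty ∧
    ∃ (L : Type) (_ : AddCommGroup L) (_ : Module ℂ L) (W : WMod (Co e) L), W.IsIC (orb e ψ) ∧
      ∀ p ∈ Conormal e (orb e φ), W.InCh p.1 p.2

/-- Question Q1 has a positive answer for the parameters `⊕ |.|^s ⊗ S_k`. -/
def Q1 : Prop :=
  ∀ (α : ℕ) (φ φ' ψ : Par), IsPar φ → IsPar φ' → IsPar ψ → Geq φ φ' → ABV φ ψ → ABV φ' ψ →
    ABV (lift α φ') (lift α ψ) → ABV (lift α φ) (lift α ψ)

end Pool.DM
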