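import Pool.Agent.Work.MP_c20ce7_dm.Defs

set_option autoImplicit false

/-!
# Main steps of the disproof of Q1

Inside the theory the degrees are integers: `e : ι → ℤ`, the vertex `i` is `{a // e a = i}`.
A point of the cotangent bundle is `(x, ξ)`; `ymat e ξ` is the matrix `y` of degree `-1`, `y b a = ξ (a, b)`.
-/

open MvPolynomial

noncomputable section

namespace Pool.DM

variable {ι : Type} [Fintype ι] [DecidableEq ι] {R : Type} [Add R] [One R]

/-- The matrix of degree `-1` of a covector: `y b a = ξ (a, b)`. -/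
def ymat (e : ι → R) (ξ : Co e → ℂ) : Matrix ι ι ℂ := by
  classical exact fun b a => if h : e a = e b + 1 then ξ ⟨(a, b), h⟩ else 0

/-- Every polynomial which vanishes on `Z` acts locally nilpotently: the support is contained in the closure
of `Z`. -/
def WMod.NilOn {σ : Type} [DecidableEq σ] {L : Type} [AddCommGroup L] [Module ℂ L]
    (W : WMod σ L) (Z : Set (σ → ℂ)) : Prop :=
  ∀ g : MvPolynomial σ ℂ, (∀ x ∈ Z, eval x g = 0) → LocNil (W.x g)

/-- The degrees after adding new basis vectors (the type `C`) of degree `i`. -/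
abbrev addDeg {ι' : Type} (e' : ι' → ℤ) (C : Type) (i : ℤ) : ι' ⊕ C → ℤ := Sum.elim e' (fun _ => i)

/-- The matrix of the embedding `v ↦ v + T v` of the old space into the new one. -/
def emb {ι' C : Type} [DecidableEq ι'] (T : Matrix C ι' ℂ) : Matrix (ι' ⊕ C) ι' ℂ :=
  Matrix.of (Sum.elim (fun a b => if a = b then 1 else 0) (fun c b => T c b))

/-- `T` maps only the old vectors of degree `i` to the new ones. -/
def TDeg {ι' C : Type} (e' : ι' → ℤ) (i : ℤ) (T : Matrix C ι' ℂ) : Prop := ∀ c a, T c a ≠ 0 → e' a = i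

/-- The minor of `(x_(i-1) | y_i) : V_(i-1) ⊕ V_(i+1) → V_i` with all rows and the columns `J`. -/
def QJ (e : ι → ℤ) (i : ℤ) (J : {a // e a = i} → ι) (x ξ : Co e → ℂ) : ℂ :=
  Matrix.det (fun a k : {a // e a = i} =>
    if e (J k) = i - 1 then mat e x a.1 (J k) else ymat e ξ a.1 (J k))

/-- **UPSTEP.** -/
def Stmt_UPSTEP : Prop :=
  ∀ (ι' C : Type) [Fintype ι'] [DecidableEq ι'] [Fintype C] [DecidableEq C] (e' : ι' → ℤ) (i : ℤ)
    (L' : Type) [AddCommGroup L'] [Module ℂ L'] (W' : WMod (Co e') L'),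
    W'.Simple → W'.Growth → W'.Equivariant →
    ∀ J : {a // e' a = i} → ι', (∀ k, e' (J k) = i - 1 ∨ e' (J k) = i + 1) →
    (∃ x ξ, W'.InCh x ξ ∧ QJ e' i J x ξ ≠ 0) →
    ∃ (L : Type) (_ : AddCommGroup L) (_ : Module ℂ L) (W : WMod (Co (addDeg e' C i)) L),
      W.Simple ∧ W.Growth ∧ W.Equivariant ∧
      (∀ x' ξ', W'.InCh x' ξ' → QJ e' i J x' ξ' ≠ 0 → ∀ (T : Matrix C ι' ℂ) (x ξ : Co (addDeg e' C i) → ℂ),
        TDeg e' i T →
        mat _ x * emb T = emb T * mat e' x' → ymat _ ξ * emb T = emb T * ymat e' ξ' →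
        (∀ a b, addDeg e' C i a = i → addDeg e' C i b = i →
          (mat _ x * ymat _ ξ - ymat _ ξ * mat _ x) a b = 0) → W.InCh x ξ) ∧
      (∀ Z' : Set (Co e' → ℂ), W'.NilOn Z' →
        W.NilOn {x | ∃ x' ∈ Z', ∃ T : Matrix C ι' ℂ, TDeg e' i T ∧ mat _ x * emb T = emb T * mat e' x'})

/-- **HST.** The characteristic variety and the support are stable under `H`. -/
def Stmt_HST : Prop :=
  ∀ (ι : Type) [Fintype ι] [DecidableEq ι] (e : ι → ℤ) (L : Type) [AddCommGroup L] [Module ℂ L]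
    (W : WMod (Co e) L), W.Simple → W.Equivariant →
    ∀ (g h : Matrix ι ι ℂ), g * h = 1 → h * g = 1 → (∀ a b, g a b ≠ 0 → e a = e b) →
      (∀ a b, h a b ≠ 0 → e a = e b) →
    ∀ x ξ x1 ξ1, W.InCh x ξ → mat e x1 = g * mat e x * h → ymat e ξ1 = g * ymat e ξ * h → W.InCh x1 ξ1

/-- A polynomial which acts locally nilpotently vanishes on the projection of the characteristic variety. -/
def Stmt_SCH : Prop :=
  ∀ (σ : Type) [Fintype σ] [DecidableEq σ] (L : Type) [AddCommGroup L] [Module ℂ L]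
    (W : WMod σ L) (g : MvPolynomial σ ℂ), W.Simple → LocNil (W.x g) → ∀ x ξ, W.InCh x ξ → eval x g = 0

/-- **TR1.** Reindexing along a bijection which respects the coordinates. -/
def Stmt_REX : Prop :=
  ∀ (σ τ : Type) [Fintype σ] [DecidableEq σ] [Fintype τ] [DecidableEq τ] (f : σ ≃ τ) (L : Type) [AddCommGroup L]
    [Module ℂ L] (W : WMod σ L), ∃ W1 : WMod τ L,
      (∀ p : MvPolynomial σ ℂ, W1.x (rename f p) = W.x p ∧ W1.d (rename f p) = W.d p) ∧
      (W.Simple → W1.Simple) ∧ (W.Growth → W1.Growth) ∧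
      (∀ x ξ, W.InCh (x ∘ f) (ξ ∘ f) → W1.InCh x ξ) ∧
      (∀ Z : Set (σ → ℂ), W.NilOn Z → W1.NilOn {x | x ∘ f ∈ Z})

/-- The degrees after transposition. -/
abbrev negDeg (e : ι → ℤ) : ι → ℤ := fun a => - e a

/-- **TR2.** Transposition. -/
def Stmt_TRA : Prop :=
  ∀ (ι : Type) [Fintype ι] [DecidableEq ι] (e : ι → ℤ) (L : Type) [AddCommGroup L]
    [Module ℂ L] (W : WMod (Co e) L), W.Simple → W.Growth → W.Equivariant →
    ∃ W1 : WMod (Co (negDeg e)) L, W1.Simple ∧ W1.Growth ∧ W1.Equivariant ∧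
      (∀ x ξ x1 ξ1, W.InCh x ξ → mat (negDeg e) x1 = (mat e x).transpose →
        ymat (negDeg e) ξ1 = (ymat e ξ).transpose → W1.InCh x1 ξ1) ∧
      (∀ Z : Set (Co e → ℂ), W.NilOn Z →
        W1.NilOn {x1 | ∃ x ∈ Z, mat (negDeg e) x1 = (mat e x).transpose})

end Pool.DM
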