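import Pool.Agent.Work.MP_c20ce7_dm.Main

set_option autoImplicit false

/-! # Further statements -/

open MvPolynomial

noncomputable section

namespace Pool.DM

/-- **OWN** (the conormal bundle of the support is in the characteristic variety). Let `u ≠ 0`, `P u = 0`, `P` of
order at most `m`. Let `I` be the ideal of the `f` with `f = 0` on `C`. There is `u0 ≠ 0` with `f u0 = 0` for the
given `f` (locally nilpotent). By `dm70` (`InCh` may be tested on one vector of a simple module) take `u = u0`.
Then `ad(f)^m (P) u0 = ± f^m P u0 + (terms with f on the right) u0 = 0` and `ad(f)^m (P)` is, up to the factor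
`± m!`, the multiplication by `h = σ_m(P)(x, df(x))`. So `h u0 = 0`, `h` is locally nilpotent on the simple `L`
(the vectors killed by a power of `h` are stable), hence `h = 0` on `C`. -/
def Stmt_OWN : Prop :=
  ∀ (σ : Type) [Fintype σ] [DecidableEq σ] (L : Type) [AddCommGroup L] [Module ℂ L]
    (W : WMod σ L) (C : Set (σ → ℂ)), W.Simple → W.SuppEq C → ∀ f : MvPolynomial σ ℂ, (∀ x ∈ C, eval x f = 0) →
      ∀ x ∈ C, W.InCh x (fun c => eval x (pderiv c f))

/-- The matrix `(x_(i-1) | y_i)` of a point of the cotangent bundle, all columns. -/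
def phiM {ι : Type} [Fintype ι] [DecidableEq ι] (e : ι → ℤ) (i : ℤ) (x ξ : Co e → ℂ) :
    Matrix {a // e a = i} ι ℂ :=
  fun a b => mat e x a.1 b + ymat e ξ a.1 b

/-- The matrix `(y_(i-1) ; x_i)` of a point of the cotangent bundle, all rows. -/
def psiM {ι : Type} [Fintype ι] [DecidableEq ι] (e : ι → ℤ) (i : ℤ) (x ξ : Co e → ℂ) :
    Matrix ι {a // e a = i} ℂ :=
  fun b a => mat e x b a.1 + ymat e ξ b a.1

/-- **RSL** (rank sum lemma of helper69, full rank case): if the characteristic variety of a simple equivariant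
module contains a point where `V_i → V_(i-1) ⊕ V_(i+1)` is injective then at every point of it the rank of
`V_(i-1) ⊕ V_(i+1) → V_i` is at most `dim V_(i-1) + dim V_(i+1) - dim V_i`. -/
def Stmt_RSL : Prop :=
  ∀ (ι : Type) [Fintype ι] [DecidableEq ι] (e : ι → ℤ) (i : ℤ) (L : Type) [AddCommGroup L] [Module ℂ L]
    (W : WMod (Co e) L), W.Simple → W.Equivariant →
    (∃ x ξ, W.InCh x ξ ∧ (psiM e i x ξ).rank = Fintype.card {a // e a = i}) →
    ∀ x ξ, W.InCh x ξ → (phiM e i x ξ).rank + Fintype.card {a // e a = i} ≤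
      Fintype.card {a // e a = i - 1 ∨ e a = i + 1}

end Pool.DM
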